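import Mathlib

/-!
# The relaxation complexity is not bounded by the hiding set bound plus a constant

For every dimension `d ≥ 3` and every `N` there is a finite, full-dimensional, lattice-convex set
`X ⊆ ℤ^d` with `rc(X) ≥ H(X) + N`.

Construction (`d = 3`): take the lattice points below `m` tangent planes
`z + 2 t x ≤ t ^ 2`, `t = 0, 20, 40, …`, of the parabolic cylinder `z = - x ^ 2`, inside a large
box, and add at height `1` above each of the `m` facets the four vertices of a unimodular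
parallelogram. At most two points of a hiding set can lie strictly above a given facet, whereas
each facet carries five points, lying around the parallelogram, such that cyclically consecutive
ones hide each other. So at least three inequalities are needed for each facet.
-/

set_option autoImplicit false

open Set

namespace Pool.Agent.Results.MP_288038_co.HidingGap

/-- The real point with the given integer coordinates. -/
def toR {d : ℕ} (p : Fin d → ℤ) : Fin d → ℝ := fun i => (p i : ℝ)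

/-- `X ⊆ ℤ^d` is lattice-convex: every integer point of the convex hull of `X` lies in `X`. -/
def LatticeConvex {d : ℕ} (X : Set (Fin d → ℤ)) : Prop :=
  ∀ p : Fin d → ℤ, toR p ∈ convexHull ℝ (toR '' X) → p ∈ X

/-- `X ⊆ ℤ^d` is full-dimensional: its affine hull is `ℝ^d`. -/
def FullDimensional {d : ℕ} (X : Set (Fin d → ℤ)) : Prop :=
  affineSpan ℝ (toR '' X) = ⊤

/-- `X` has a relaxation given by `k` linear inequalities with real coefficients: a polyhedron
`P = {x | ⟨a_i, x⟩ ≤ b_i, i = 1, …, k}` with `P ∩ ℤ^d = X`. -/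
def HasRelaxation {d : ℕ} (X : Set (Fin d → ℤ)) (k : ℕ) : Prop :=
  ∃ (a : Fin k → Fin d → ℝ) (b : Fin k → ℝ),
    ∀ p : Fin d → ℤ, p ∈ X ↔ ∀ i, ∑ j, a i j * (p j : ℝ) ≤ b i

/-- `r` is the relaxation complexity of `X`: the least number of inequalities (equivalently, of
facets, as all relaxations of a full-dimensional `X` are full-dimensional) of a relaxation. -/
def IsRelaxationComplexity {d : ℕ} (X : Set (Fin d → ℤ)) (r : ℕ) : Prop :=
  IsLeast {k | HasRelaxation X k} r

/-- `H` is a hiding set of `X`: a set of integer points outside `X` such that the segment between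
any two distinct points of `H` meets the convex hull of `X`. -/
def IsHidingSet {d : ℕ} (X : Set (Fin d → ℤ)) (H : Finset (Fin d → ℤ)) : Prop :=
  (∀ p ∈ H, p ∉ X) ∧ ∀ p ∈ H, ∀ q ∈ H, p ≠ q →
    (segment ℝ (toR p) (toR q) ∩ convexHull ℝ (toR '' X)).Nonempty

/-- `h` is the hiding set bound of `X`: the largest cardinality of a hiding set. -/
def IsHidingBound {d : ℕ} (X : Set (Fin d → ℤ)) (h : ℕ) : Prop :=
  IsGreatest {n | ∃ H : Finset (Fin d → ℤ), IsHidingSet X H ∧ H.card = n} h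

/-! ### A two-dimensional lemma -/

/-- The segment between `(p1, p2)` and `(q1, q2)` meets the unit square. -/
def Hits (p1 p2 q1 q2 : ℤ) : Prop :=
  ∃ s t : ℝ, 0 ≤ s ∧ 0 ≤ t ∧ s + t = 1 ∧ 0 ≤ s * p1 + t * q1 ∧ s * p1 + t * q1 ≤ 1 ∧
    0 ≤ s * p2 + t * q2 ∧ s * p2 + t * q2 ≤ 1

/-- `(p1, p2)` is not a vertex of the unit square. -/
def Off (p1 p2 : ℤ) : Prop := ¬ (0 ≤ p1 ∧ p1 ≤ 1 ∧ 0 ≤ p2 ∧ p2 ≤ 1)

theorem Hits.pos {p1 p2 q1 q2 : ℤ} (h : Hits p1 p2 q1 q2) (hp : Off p1 p2) (hq : Off q1 q2) :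
    ∃ s t : ℝ, 0 < s ∧ 0 < t ∧ s + t = 1 ∧ 0 ≤ s * p1 + t * q1 ∧ s * p1 + t * q1 ≤ 1 ∧
    0 ≤ s * p2 + t * q2 ∧ s * p2 + t * q2 ≤ 1 := by
  obtain ⟨s, t, hs, ht, hst, h1, h2, h3, h4⟩ := h
  refine ⟨s, t, lt_of_le_of_ne hs ?_, lt_of_le_of_ne ht ?_, hst, h1, h2, h3, h4⟩
  · rintro rfl
    have ht1 : t = 1 := by linarith
    subst ht1
    apply hq
    simp only [zero_mul, one_mul, zero_add] at h1 h2 h3 h4
    exact ⟨by exact_mod_cast h1, by exact_mod_cast h2, by exact_mod_cast h3, by exact_mod_cast h4⟩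
  · rintro rfl
    have hs1 : s = 1 := by linarith
    subst hs1
    apply hp
    simp only [zero_mul, one_mul, add_zero] at h1 h2 h3 h4
    exact ⟨by exact_mod_cast h1, by exact_mod_cast h2, by exact_mod_cast h3, by exact_mod_cast h4⟩

/-- If two points off the square see the square between them, and a functional is at least its
maximum `M` over the square at both points, then it equals `M` at both points. -/
theorem Hits.eq {p1 p2 q1 q2 : ℤ} (h : Hits p1 p2 q1 q2) (hp : Off p1 p2) (hq : Off q1 q2)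
    (α β M : ℤ) (h00 : 0 ≤ M) (h10 : α ≤ M) (h01 : β ≤ M) (h11 : α + β ≤ M)
    (h1 : M ≤ α * p1 + β * p2) (h2 : M ≤ α * q1 + β * q2) :
    α * p1 + β * p2 = M ∧ α * q1 + β * q2 = M := by
  obtain ⟨s, t, hs, ht, hst, k1, k2, k3, k4⟩ := h.pos hp hq
  -- the value of the functional at the point of the square
  set x : ℝ := s * p1 + t * q1 with hx
  set y : ℝ := s * p2 + t * q2 with hy
  have hval : (α : ℝ) * x + β * y ≤ M := by
    have e : (α : ℝ) * x + β * y =
        (1 - x) * (1 - y) * 0 + x * (1 - y) * α + (1 - x) * y * β + x * y * (α + β) := by ring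
    have a00 : (0 : ℝ) ≤ M := by exact_mod_cast h00
    have a10 : (α : ℝ) ≤ M := by exact_mod_cast h10
    have a01 : (β : ℝ) ≤ M := by exact_mod_cast h01
    have a11 : (α : ℝ) + β ≤ M := by exact_mod_cast h11
    have b1 : 0 ≤ (1 - x) * (1 - y) := mul_nonneg (by linarith) (by linarith)
    have b2 : 0 ≤ x * (1 - y) := mul_nonneg (by linarith) (by linarith)
    have b3 : 0 ≤ (1 - x) * y := mul_nonneg (by linarith) (by linarith)
    have b4 : 0 ≤ x * y := mul_nonneg (by linarith) (by linarith)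
    rw [e]
    calc _ ≤ (1 - x) * (1 - y) * M + x * (1 - y) * M + (1 - x) * y * M + x * y * (M : ℝ) := by
          have c1 := mul_le_mul_of_nonneg_left a00 b1
          have c2 := mul_le_mul_of_nonneg_left a10 b2
          have c3 := mul_le_mul_of_nonneg_left a01 b3
          have c4 := mul_le_mul_of_nonneg_left a11 b4
          linarith
      _ = M := by ring
  have hcomb : (α : ℝ) * x + β * y =
      s * ((α * p1 + β * p2 : ℤ) : ℝ) + t * ((α * q1 + β * q2 : ℤ) : ℝ) := by
    push_cast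
    rw [hx, hy]
    ring
  rw [hcomb] at hval
  have g1 : (M : ℝ) ≤ ((α * p1 + β * p2 : ℤ) : ℝ) := by exact_mod_cast h1
  have g2 : (M : ℝ) ≤ ((α * q1 + β * q2 : ℤ) : ℝ) := by exact_mod_cast h2
  have hM : (M : ℝ) = s * M + t * M := by rw [← add_mul, hst, one_mul]
  have l1 := mul_le_mul_of_nonneg_left g1 hs.le
  have l2 := mul_le_mul_of_nonneg_left g2 ht.le
  constructor
  · by_contra hne
    have hlt : (M : ℝ) < ((α * p1 + β * p2 : ℤ) : ℝ) := by
      have : M < α * p1 + β * p2 := by omega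
      exact_mod_cast this
    have := mul_lt_mul_of_pos_left hlt hs
    linarith
  · by_contra hne
    have hlt : (M : ℝ) < ((α * q1 + β * q2 : ℤ) : ℝ) := by
      have : M < α * q1 + β * q2 := by omega
      exact_mod_cast this
    have := mul_lt_mul_of_pos_left hlt ht
    linarith

/-- Consequences of `Hits.eq` for the four coordinate directions. -/
theorem Hits.facts {p1 p2 q1 q2 : ℤ} (h : Hits p1 p2 q1 q2) (hp : Off p1 p2) (hq : Off q1 q2) :
    (1 ≤ p1 → 1 ≤ q1 → p1 = 1 ∧ q1 = 1) ∧ (p1 ≤ 0 → q1 ≤ 0 → p1 = 0 ∧ q1 = 0) ∧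
    (1 ≤ p2 → 1 ≤ q2 → p2 = 1 ∧ q2 = 1) ∧ (p2 ≤ 0 → q2 ≤ 0 → p2 = 0 ∧ q2 = 0) := by
  refine ⟨fun a b => ?_, fun a b => ?_, fun a b => ?_, fun a b => ?_⟩
  · have := h.eq hp hq 1 0 1 (by norm_num) (by norm_num) (by norm_num) (by norm_num)
      (by omega) (by omega)
    omega
  · have := h.eq hp hq (-1) 0 0 (by norm_num) (by norm_num) (by norm_num) (by norm_num)
      (by omega) (by omega)
    omega
  · have := h.eq hp hq 0 1 1 (by norm_num) (by norm_num) (by norm_num) (by norm_num)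
      (by omega) (by omega)
    omega
  · have := h.eq hp hq 0 (-1) 0 (by norm_num) (by norm_num) (by norm_num) (by norm_num)
      (by omega) (by omega)
    omega

/-- No three integer points off the unit square pairwise hide each other. -/
theorem no_three {p1 p2 q1 q2 r1 r2 : ℤ} (hp : Off p1 p2) (hq : Off q1 q2) (hr : Off r1 r2)
    (hpq : Hits p1 p2 q1 q2) (hqr : Hits q1 q2 r1 r2) (hpr : Hits p1 p2 r1 r2) : False := by
  obtain ⟨a1, a2, a3, a4⟩ := hpq.facts hp hq
  obtain ⟨b1, b2, b3, b4⟩ := hqr.facts hq hr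
  obtain ⟨c1, c2, c3, c4⟩ := hpr.facts hp hr
  have hp' : 2 ≤ p1 ∨ p1 ≤ -1 ∨ 2 ≤ p2 ∨ p2 ≤ -1 := by unfold Off at hp; omega
  have hq' : 2 ≤ q1 ∨ q1 ≤ -1 ∨ 2 ≤ q2 ∨ q2 ≤ -1 := by unfold Off at hq; omega
  have hr' : 2 ≤ r1 ∨ r1 ≤ -1 ∨ 2 ≤ r2 ∨ r2 ≤ -1 := by unfold Off at hr; omega
  clear hp hq hr
  rcases hp' with h | h | h | h <;> rcases hq' with h' | h' | h' | h' <;>
    rcases hr' with h'' | h'' | h'' | h'' <;> omega

/-! ### The construction -/

section construction

variable (e m : ℕ)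

/-- The first three coordinates. -/
abbrev i0 : Fin (e + 3) := ⟨0, by omega⟩

@[inherit_doc i0] abbrev i1 : Fin (e + 3) := ⟨1, by omega⟩

@[inherit_doc i0] abbrev i2 : Fin (e + 3) := ⟨2, by omega⟩

/-- The size of the box. -/
def KK : ℤ := 2 * (20 * (m : ℤ) + 20) ^ 2

/-- Lower bounds of the box. -/
def lo (i : Fin (e + 3)) : ℤ :=
  if (i : ℕ) = 0 then -KK m else if (i : ℕ) = 1 then -3 else if (i : ℕ) = 2 then -KK m else 0

/-- Upper bounds of the box. -/
def hi (i : Fin (e + 3)) : ℤ :=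
  if (i : ℕ) = 0 then KK m else if (i : ℕ) = 1 then 4 else if (i : ℕ) = 2 then KK m else 1

/-- The condition attached to the tangent plane at `x_0 = T`: the point lies below the plane, or
it is one of the vertices of the parallelogram above it. -/
def Good (T : ℤ) (x : Fin (e + 3) → ℤ) : Prop :=
  x (i2 e) + 2 * T * x (i0 e) ≤ T ^ 2 ∨
    (x (i2 e) + 2 * T * x (i0 e) = T ^ 2 + 1 ∧ T ≤ x (i0 e) ∧ x (i0 e) ≤ T + 1 ∧
      0 ≤ x (i1 e) ∧ x (i1 e) ≤ 1)

/-- The lattice-convex set. -/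
def XX : Set (Fin (e + 3) → ℤ) :=
  {x | (∀ i, lo e m i ≤ x i ∧ x i ≤ hi e m i) ∧ ∀ j : Fin m, Good e (20 * (j : ℤ)) x}

/-- The real version of `Good`. -/
def DD (T : ℝ) : Set (Fin (e + 3) → ℝ) :=
  {x | x (i2 e) + 2 * T * x (i0 e) < T ^ 2 + 1 ∨
    (x (i2 e) + 2 * T * x (i0 e) = T ^ 2 + 1 ∧ T ≤ x (i0 e) ∧ x (i0 e) ≤ T + 1 ∧
      0 ≤ x (i1 e) ∧ x (i1 e) ≤ 1)}

theorem DD_le {T : ℝ} {x : Fin (e + 3) → ℝ} (hx : x ∈ DD e T) :
    x (i2 e) + 2 * T * x (i0 e) ≤ T ^ 2 + 1 := by
  rcases hx with h | h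
  · exact h.le
  · exact h.1.le

theorem convex_DD (T : ℝ) : Convex ℝ (DD e T) := by
  intro x hx y hy a b ha hb hab
  rcases ha.eq_or_lt with rfl | ha
  · have : b = 1 := by linarith
    subst this
    simpa using hy
  rcases hb.eq_or_lt with rfl | hb
  · have : a = 1 := by linarith
    subst this
    simpa using hx
  have hx' := DD_le e hx
  have hy' := DD_le e hy
  have m1 := mul_le_mul_of_nonneg_left hx' ha.le
  have m2 := mul_le_mul_of_nonneg_left hy' hb.le
  have e0 : T ^ 2 + 1 = a * (T ^ 2 + 1) + b * (T ^ 2 + 1) := by rw [← add_mul, hab, one_mul]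
  simp only [DD, mem_ofPred_eq, Pi.add_apply, Pi.smul_apply, smul_eq_mul]
  rcases hx with hx | hx
  · left
    have := mul_lt_mul_of_pos_left hx ha
    linarith
  rcases hy with hy | hy
  · left
    have := mul_lt_mul_of_pos_left hy hb
    linarith
  right
  obtain ⟨x1, x2, x3, x4, x5⟩ := hx
  obtain ⟨y1, y2, y3, y4, y5⟩ := hy
  have hT : T = a * T + b * T := by rw [← add_mul, hab, one_mul]
  refine ⟨?_, ?_, ?_, ?_, ?_⟩
  · calc _ = a * (x (i2 e) + 2 * T * x (i0 e)) + b * (y (i2 e) + 2 * T * y (i0 e)) := by ring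
      _ = _ := by rw [x1, y1, ← add_mul, hab, one_mul]
  · have := mul_le_mul_of_nonneg_left x2 ha.le
    have := mul_le_mul_of_nonneg_left y2 hb.le
    linarith
  · have := mul_le_mul_of_nonneg_left x3 ha.le
    have := mul_le_mul_of_nonneg_left y3 hb.le
    nlinarith
  · have := mul_nonneg ha.le x4
    have := mul_nonneg hb.le y4
    linarith
  · have := mul_le_mul_of_nonneg_left x5 ha.le
    have := mul_le_mul_of_nonneg_left y5 hb.le
    linarith

theorem toR_DD {T : ℤ} {x : Fin (e + 3) → ℤ} : toR x ∈ DD e T ↔ Good e T x := by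
  simp only [DD, Good, toR, mem_ofPred_eq]
  constructor
  · rintro (h | ⟨h1, h2, h3, h4, h5⟩)
    · left
      have : x (i2 e) + 2 * T * x (i0 e) < T ^ 2 + 1 := by exact_mod_cast h
      omega
    · right
      exact ⟨by exact_mod_cast h1, by exact_mod_cast h2, by exact_mod_cast h3,
        by exact_mod_cast h4, by exact_mod_cast h5⟩
  · rintro (h | ⟨h1, h2, h3, h4, h5⟩)
    · left
      have h' : x (i2 e) + 2 * T * x (i0 e) < T ^ 2 + 1 := by omega
      exact_mod_cast h'
    · right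
      exact ⟨by exact_mod_cast h1, by exact_mod_cast h2, by exact_mod_cast h3,
        by exact_mod_cast h4, by exact_mod_cast h5⟩

theorem hull_DD {x : Fin (e + 3) → ℝ} (hx : x ∈ convexHull ℝ (toR '' XX e m)) (j : Fin m) :
    x ∈ DD e ((20 * (j : ℤ) : ℤ) : ℝ) := by
  refine convexHull_min ?_ (convex_DD e _) hx
  rintro _ ⟨p, hp, rfl⟩
  exact (toR_DD e).2 (hp.2 j)

theorem hull_lo {x : Fin (e + 3) → ℝ} (hx : x ∈ convexHull ℝ (toR '' XX e m)) (i : Fin (e + 3)) :
    (lo e m i : ℝ) ≤ x i := by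
  have hc : Convex ℝ {x : Fin (e + 3) → ℝ | (lo e m i : ℝ) ≤ x i} :=
    convex_halfSpace_ge (LinearMap.proj i).isLinear _
  refine convexHull_min ?_ hc hx
  rintro _ ⟨p, hp, rfl⟩
  show (lo e m i : ℝ) ≤ (p i : ℝ)
  exact_mod_cast (hp.1 i).1

theorem hull_hi {x : Fin (e + 3) → ℝ} (hx : x ∈ convexHull ℝ (toR '' XX e m)) (i : Fin (e + 3)) :
    x i ≤ (hi e m i : ℝ) := by
  have hc : Convex ℝ {x : Fin (e + 3) → ℝ | x i ≤ (hi e m i : ℝ)} :=
    convex_halfSpace_le (LinearMap.proj i).isLinear _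
  refine convexHull_min ?_ hc hx
  rintro _ ⟨p, hp, rfl⟩
  show (p i : ℝ) ≤ (hi e m i : ℝ)
  exact_mod_cast (hp.1 i).2

theorem latticeConvex_XX : LatticeConvex (XX e m) := by
  intro p hp
  refine ⟨fun i => ⟨?_, ?_⟩, fun j => (toR_DD e).1 (hull_DD e m hp j)⟩
  · have := hull_lo e m hp i
    simp only [toR] at this
    exact_mod_cast this
  · have := hull_hi e m hp i
    simp only [toR] at this
    exact_mod_cast this

theorem finite_XX : (XX e m).Finite := by
  apply (Set.finite_Icc (lo e m) (hi e m)).subset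
  intro x hx
  exact ⟨fun i => (hx.1 i).1, fun i => (hx.1 i).2⟩

/-- A point with prescribed first three coordinates, the others being zero. -/
def pt (a b c : ℤ) (i : Fin (e + 3)) : ℤ :=
  if (i : ℕ) = 0 then a else if (i : ℕ) = 1 then b else if (i : ℕ) = 2 then c else 0

theorem KK_pos : 800 ≤ KK m := by
  unfold KK
  have : (0 : ℤ) ≤ m := by positivity
  nlinarith

theorem pt_mem {a b c : ℤ} (ha : -KK m ≤ a) (ha' : a ≤ KK m) (hb : -3 ≤ b) (hb' : b ≤ 4)
    (hc : -KK m ≤ c) (hc' : c ≤ KK m) (h : ∀ j : Fin m, Good e (20 * (j : ℤ)) (pt e a b c)) :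
    pt e a b c ∈ XX e m := by
  refine ⟨fun i => ?_, h⟩
  unfold lo hi pt
  split_ifs <;> constructor <;> omega

theorem good_of_le {T a b c : ℤ} (h : c + a ^ 2 ≤ 0) : Good e T (pt e a b c) := by
  left
  simp only [pt]
  norm_num
  nlinarith [sq_nonneg (T - a)]

theorem fullDimensional_XX : FullDimensional (XX e m) := by
  have hK := KK_pos m
  have hmem : ∀ a b : ℤ, 0 ≤ a → a ≤ 1 → 0 ≤ b → b ≤ 1 → ∀ c : ℤ, -5 ≤ c → c ≤ -4 →
      ∀ f : Fin (e + 3) → ℤ, (∀ i, 0 ≤ f i ∧ f i ≤ 1) →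
      (fun i : Fin (e + 3) => if (i : ℕ) < 3 then pt e a b c i else f i) ∈ XX e m := by
    intro a b ha ha' hb hb' c hc hc' f hf
    refine ⟨fun i => ?_, fun j => ?_⟩
    · have := hf i
      unfold lo hi pt
      dsimp only
      split_ifs <;> constructor <;> omega
    · have := good_of_le e (T := 20 * (j : ℤ)) (a := a) (b := b) (c := c) (by nlinarith)
      simpa [Good] using this
  have hbase : toR (fun i : Fin (e + 3) => if (i : ℕ) < 3 then pt e 0 0 (-5) i else 0) ∈
      toR '' XX e m := ⟨_, hmem 0 0 (by norm_num) (by norm_num) (by norm_num) (by norm_num) (-5)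
        (by norm_num) (by norm_num) (fun _ => 0) (fun _ => by norm_num), rfl⟩
  rw [FullDimensional, AffineSubspace.affineSpan_eq_top_iff_vectorSpan_eq_top_of_nonempty ℝ
    (Fin (e + 3) → ℝ) (Fin (e + 3) → ℝ) ⟨_, hbase⟩]
  rw [eq_top_iff, ← (Pi.basisFun ℝ (Fin (e + 3))).span_eq, Submodule.span_le]
  rintro _ ⟨k, rfl⟩
  rw [Pi.basisFun_apply]
  have h2 : ∃ y ∈ toR '' XX e m, Pi.single k (1 : ℝ) =
      y -ᵥ toR (fun i : Fin (e + 3) => if (i : ℕ) < 3 then pt e 0 0 (-5) i else 0) := by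
    refine ⟨_, ⟨_, hmem (if (k : ℕ) = 0 then 1 else 0) (if (k : ℕ) = 1 then 1 else 0)
      (by split_ifs <;> norm_num) (by split_ifs <;> norm_num) (by split_ifs <;> norm_num)
      (by split_ifs <;> norm_num) (if (k : ℕ) = 2 then -4 else -5)
      (by split_ifs <;> norm_num) (by split_ifs <;> norm_num)
      (fun i => if i = k then 1 else 0) (fun i => by split_ifs <;> norm_num), rfl⟩, ?_⟩
    funext i
    simp only [vsub_eq_sub, Pi.sub_apply, toR, Pi.single_apply]
    have hik : i = k ↔ (i : ℕ) = (k : ℕ) := Fin.ext_iff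
    simp only [hik, pt]
    split_ifs <;> first | omega | norm_num
  obtain ⟨y, hy, hy'⟩ := h2
  rw [hy']
  exact vsub_mem_vectorSpan ℝ hy hbase

/-! ### Upper bound for hiding sets -/

/-- The points of the box that violate the condition attached to the `j`-th plane. -/
def AA (j : Fin m) (x : Fin (e + 3) → ℤ) : Prop := ¬ Good e (20 * (j : ℤ)) x

theorem pair_hits {j : Fin m} {p q : Fin (e + 3) → ℤ} (hp : AA e m j p) (hq : AA e m j q)
    (h : (segment ℝ (toR p) (toR q) ∩ convexHull ℝ (toR '' XX e m)).Nonempty) :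
    Off (p (i0 e) - 20 * (j : ℤ)) (p (i1 e)) ∧ Off (q (i0 e) - 20 * (j : ℤ)) (q (i1 e)) ∧
    Hits (p (i0 e) - 20 * (j : ℤ)) (p (i1 e)) (q (i0 e) - 20 * (j : ℤ)) (q (i1 e)) := by
  obtain ⟨z, ⟨s, t, hs, ht, hst, hz⟩, hzh⟩ := h
  have hD := hull_DD e m hzh j
  set T : ℤ := 20 * (j : ℤ) with hT
  have hs0 : 0 < s := by
    refine lt_of_le_of_ne hs ?_
    rintro rfl
    have : t = 1 := by linarith
    subst this
    rw [zero_smul, one_smul, zero_add] at hz
    rw [← hz] at hD
    exact hq ((toR_DD e).1 hD)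
  have ht0 : 0 < t := by
    refine lt_of_le_of_ne ht ?_
    rintro rfl
    have : s = 1 := by linarith
    subst this
    rw [zero_smul, one_smul, add_zero] at hz
    rw [← hz] at hD
    exact hp ((toR_DD e).1 hD)
  have gp : T ^ 2 + 1 ≤ p (i2 e) + 2 * T * p (i0 e) := by
    by_contra hc
    have : p (i2 e) + 2 * T * p (i0 e) ≤ T ^ 2 := by omega
    exact hp (Or.inl this)
  have gq : T ^ 2 + 1 ≤ q (i2 e) + 2 * T * q (i0 e) := by
    by_contra hc
    have : q (i2 e) + 2 * T * q (i0 e) ≤ T ^ 2 := by omega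
    exact hq (Or.inl this)
  have gp' : (T : ℝ) ^ 2 + 1 ≤ p (i2 e) + 2 * T * p (i0 e) := by exact_mod_cast gp
  have gq' : (T : ℝ) ^ 2 + 1 ≤ q (i2 e) + 2 * T * q (i0 e) := by exact_mod_cast gq
  have z0 : z (i0 e) = s * p (i0 e) + t * q (i0 e) := by rw [← hz]; simp [toR]
  have z1 : z (i1 e) = s * p (i1 e) + t * q (i1 e) := by rw [← hz]; simp [toR]
  have z2 : z (i2 e) = s * p (i2 e) + t * q (i2 e) := by rw [← hz]; simp [toR]
  have hDle := DD_le e hD
  have hg : z (i2 e) + 2 * T * z (i0 e) =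
      s * (p (i2 e) + 2 * T * p (i0 e)) + t * (q (i2 e) + 2 * T * q (i0 e)) := by
    rw [z0, z2]; ring
  have e0 : (T : ℝ) ^ 2 + 1 = s * (T ^ 2 + 1) + t * (T ^ 2 + 1) := by rw [← add_mul, hst, one_mul]
  have m1 := mul_le_mul_of_nonneg_left gp' hs
  have m2 := mul_le_mul_of_nonneg_left gq' ht
  have hgp : (p (i2 e) : ℝ) + 2 * T * p (i0 e) = T ^ 2 + 1 := by
    apply le_antisymm _ gp'
    by_contra hc
    have := mul_lt_mul_of_pos_left (not_le.1 hc) hs0
    linarith
  have hgq : (q (i2 e) : ℝ) + 2 * T * q (i0 e) = T ^ 2 + 1 := by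
    apply le_antisymm _ gq'
    by_contra hc
    have := mul_lt_mul_of_pos_left (not_le.1 hc) ht0
    linarith
  have hgp' : p (i2 e) + 2 * T * p (i0 e) = T ^ 2 + 1 := by exact_mod_cast hgp
  have hgq' : q (i2 e) + 2 * T * q (i0 e) = T ^ 2 + 1 := by exact_mod_cast hgq
  have hgz : z (i2 e) + 2 * T * z (i0 e) = T ^ 2 + 1 := by rw [hg, hgp, hgq, ← e0]
  refine ⟨?_, ?_, ?_⟩
  · rintro ⟨h1, h2, h3, h4⟩
    exact hp (Or.inr ⟨hgp', by omega, by omega, h3, h4⟩)
  · rintro ⟨h1, h2, h3, h4⟩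
    exact hq (Or.inr ⟨hgq', by omega, by omega, h3, h4⟩)
  · rcases hD with hD | ⟨-, d1, d2, d3, d4⟩
    · exact absurd hgz hD.ne
    · refine ⟨s, t, hs, ht, hst, ?_, ?_, ?_, ?_⟩
      · push_cast
        rw [z0] at d1
        have : (T : ℝ) = s * T + t * T := by rw [← add_mul, hst, one_mul]
        linarith
      · push_cast
        rw [z0] at d2
        have : (T : ℝ) = s * T + t * T := by rw [← add_mul, hst, one_mul]
        linarith
      · rw [← z1]; exact d3
      · rw [← z1]; exact d4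

theorem hiding_card {H : Finset (Fin (e + 3) → ℤ)} (hH : IsHidingSet (XX e m) H) :
    H.card ≤ 2 * (e + 3) + 2 * m := by
  classical
  obtain ⟨hH1, hH2⟩ := hH
  have hsub : H ⊆ ((Finset.univ.biUnion fun i => H.filter fun x => x i < lo e m i) ∪
      (Finset.univ.biUnion fun i => H.filter fun x => hi e m i < x i)) ∪
      (Finset.univ.biUnion fun j => H.filter fun x => AA e m j x) := by
    intro x hx
    have hxX := hH1 x hx
    simp only [Finset.mem_union, Finset.mem_biUnion, Finset.mem_univ, true_and,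
      Finset.mem_filter]
    by_contra hc
    push Not at hc
    apply hxX
    refine ⟨fun i => ⟨hc.1.1 i hx, hc.1.2 i hx⟩, fun j => ?_⟩
    have := hc.2 j hx
    unfold AA at this
    push Not at this
    exact this
  have c1 : ∀ i, (H.filter fun x => x i < lo e m i).card ≤ 1 := by
    intro i
    rw [Finset.card_le_one]
    intro p hp q hq
    rw [Finset.mem_filter] at hp hq
    by_contra hne
    obtain ⟨z, ⟨s, t, hs, ht, hst, hz⟩, hzh⟩ := hH2 p hp.1 q hq.1 hne
    have h1 := hull_lo e m hzh i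
    have h2 : z i = s * p i + t * q i := by rw [← hz]; simp [toR]
    have h3 : (p i : ℝ) < lo e m i := by exact_mod_cast hp.2
    have h4 : (q i : ℝ) < lo e m i := by exact_mod_cast hq.2
    have h5 : (lo e m i : ℝ) = s * lo e m i + t * lo e m i := by rw [← add_mul, hst, one_mul]
    rcases hs.eq_or_lt with rfl | hs
    · have : t = 1 := by linarith
      subst this
      linarith
    · have := mul_lt_mul_of_pos_left h3 hs
      have := mul_le_mul_of_nonneg_left h4.le ht
      linarith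
  have c2 : ∀ i, (H.filter fun x => hi e m i < x i).card ≤ 1 := by
    intro i
    rw [Finset.card_le_one]
    intro p hp q hq
    rw [Finset.mem_filter] at hp hq
    by_contra hne
    obtain ⟨z, ⟨s, t, hs, ht, hst, hz⟩, hzh⟩ := hH2 p hp.1 q hq.1 hne
    have h1 := hull_hi e m hzh i
    have h2 : z i = s * p i + t * q i := by rw [← hz]; simp [toR]
    have h3 : (hi e m i : ℝ) < p i := by exact_mod_cast hp.2
    have h4 : (hi e m i : ℝ) < q i := by exact_mod_cast hq.2
    have h5 : (hi e m i : ℝ) = s * hi e m i + t * hi e m i := by rw [← add_mul, hst, one_mul]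
    rcases hs.eq_or_lt with rfl | hs
    · have : t = 1 := by linarith
      subst this
      linarith
    · have := mul_lt_mul_of_pos_left h3 hs
      have := mul_le_mul_of_nonneg_left h4.le ht
      linarith
  have c3 : ∀ j, (H.filter fun x => AA e m j x).card ≤ 2 := by
    intro j
    by_contra hc
    push Not at hc
    obtain ⟨p, q, r, hp, hq, hr, hpq, hpr, hqr⟩ := Finset.two_lt_card_iff.1 hc
    rw [Finset.mem_filter] at hp hq hr
    obtain ⟨o1, o2, h1⟩ := pair_hits e m hp.2 hq.2 (hH2 p hp.1 q hq.1 hpq)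
    obtain ⟨-, o3, h2⟩ := pair_hits e m hq.2 hr.2 (hH2 q hq.1 r hr.1 hqr)
    obtain ⟨-, -, h3⟩ := pair_hits e m hp.2 hr.2 (hH2 p hp.1 r hr.1 hpr)
    exact no_three o1 o2 o3 h1 h2 h3
  have b1 : (Finset.univ.biUnion fun i => H.filter fun x => x i < lo e m i).card ≤ e + 3 := by
    refine Finset.card_biUnion_le.trans ((Finset.sum_le_sum fun i _ => c1 i).trans ?_)
    simp
  have b2 : (Finset.univ.biUnion fun i => H.filter fun x => hi e m i < x i).card ≤ e + 3 := by
    refine Finset.card_biUnion_le.trans ((Finset.sum_le_sum fun i _ => c2 i).trans ?_)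
    simp
  have b3 : (Finset.univ.biUnion fun j => H.filter fun x => AA e m j x).card ≤ 2 * m := by
    refine Finset.card_biUnion_le.trans ((Finset.sum_le_sum fun i _ => c3 i).trans ?_)
    simp [mul_comm]
  have := Finset.card_le_card hsub
  have u1 := Finset.card_union_le ((Finset.univ.biUnion fun i => H.filter fun x => x i < lo e m i) ∪
      (Finset.univ.biUnion fun i => H.filter fun x => hi e m i < x i))
      (Finset.univ.biUnion fun j => H.filter fun x => AA e m j x)
  have u2 := Finset.card_union_le (Finset.univ.biUnion fun i => H.filter fun x => x i < lo e m i)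
      (Finset.univ.biUnion fun i => H.filter fun x => hi e m i < x i)
  omega

/-! ### Lower bound for relaxations -/

/-- The point over the `j`-th facet with relative coordinates `(a, b)`, in the plane at height
`1`. -/
def QQ (T a b : ℤ) : Fin (e + 3) → ℤ := pt e (T + a) b (-T ^ 2 - 2 * T * a + 1)

theorem QQ_mem (j : Fin m) {a b : ℤ} (ha : 0 ≤ a) (ha' : a ≤ 1) (hb : 0 ≤ b) (hb' : b ≤ 1) :
    QQ e (20 * (j : ℤ)) a b ∈ XX e m := by
  have hj0 : (0 : ℤ) ≤ (j : ℤ) := by positivity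
  have hjm : (j : ℤ) < m := by exact_mod_cast j.2
  have hK : KK m = 2 * (20 * (m : ℤ) + 20) ^ 2 := rfl
  have hm : (0 : ℤ) ≤ m := by positivity
  apply pt_mem
  · nlinarith
  · nlinarith
  · omega
  · omega
  · nlinarith
  · nlinarith
  · intro j'
    by_cases h : j' = j
    · subst h
      right
      simp only [pt]
      norm_num
      refine ⟨by ring, ha, ha', hb, hb'⟩
    · left
      have hne : (j' : ℤ) ≠ (j : ℤ) := by
        intro hc
        apply h
        apply Fin.ext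
        exact_mod_cast hc
      simp only [pt]
      norm_num
      rcases lt_or_gt_of_ne hne with h1 | h1
      · nlinarith
      · have h2 : (1 : ℤ) ≤ (j' : ℤ) - j := by omega
        nlinarith [mul_le_mul h2 h2 (by norm_num) (by omega)]

theorem QQ_not_mem (j : Fin m) {a b : ℤ} (h : Off a b) : QQ e (20 * (j : ℤ)) a b ∉ XX e m := by
  intro hX
  have := hX.2 j
  unfold Good QQ pt at this
  norm_num at this
  unfold Off at h
  rcases this with h1 | ⟨h1, h2, h3, h4, h5⟩
  · nlinarith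
  · exact h ⟨by omega, by omega, h4, h5⟩

/-- Two points outside `X` whose sum is the sum of two points of `X` violate different
inequalities of a relaxation of `X`. -/
theorem conflict {d k : ℕ} {X : Set (Fin d → ℤ)} {a : Fin k → Fin d → ℝ} {b : Fin k → ℝ}
    (hab : ∀ p : Fin d → ℤ, p ∈ X ↔ ∀ i, ∑ j, a i j * (p j : ℝ) ≤ b i) {p q u v : Fin d → ℤ}
    (hu : u ∈ X) (hv : v ∈ X) (h : p + q = u + v) (i : Fin k)
    (hp : b i < ∑ j, a i j * (p j : ℝ)) (hq : b i < ∑ j, a i j * (q j : ℝ)) : False := by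
  have h1 := (hab u).1 hu i
  have h2 := (hab v).1 hv i
  have h3 : ∑ j, a i j * (p j : ℝ) + ∑ j, a i j * (q j : ℝ) =
      ∑ j, a i j * (u j : ℝ) + ∑ j, a i j * (v j : ℝ) := by
    rw [← Finset.sum_add_distrib, ← Finset.sum_add_distrib]
    apply Finset.sum_congr rfl
    intro j _
    have := congrFun h j
    simp only [Pi.add_apply] at this
    rw [← mul_add, ← mul_add]
    congr 1
    exact_mod_cast this
  linarith

/-- The relative coordinates of the five points around the parallelogram. -/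
def ca : Fin 5 → ℤ := ![2, 0, 0, 1, -1]

@[inherit_doc ca] def cb : Fin 5 → ℤ := ![0, 2, -1, 2, 0]

theorem off_c (s : Fin 5) : Off (ca s) (cb s) := by
  unfold Off ca cb
  fin_cases s <;> simp

/-- Cyclically consecutive points hide each other. -/
theorem same (j : Fin m) (s : Fin 5) : ∃ u ∈ XX e m, ∃ v ∈ XX e m,
    QQ e (20 * (j : ℤ)) (ca s) (cb s) + QQ e (20 * (j : ℤ)) (ca (s + 1)) (cb (s + 1)) = u + v := by
  have key : ∀ a b a' b' c d c' d' : ℤ, 0 ≤ c → c ≤ 1 → 0 ≤ d → d ≤ 1 → 0 ≤ c' → c' ≤ 1 →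
      0 ≤ d' → d' ≤ 1 → a + a' = c + c' → b + b' = d + d' →
      ∃ u ∈ XX e m, ∃ v ∈ XX e m,
        QQ e (20 * (j : ℤ)) a b + QQ e (20 * (j : ℤ)) a' b' = u + v := by
    intro a b a' b' c d c' d' h1 h2 h3 h4 h5 h6 h7 h8 h9 h10
    refine ⟨_, QQ_mem e m j h1 h2 h3 h4, _, QQ_mem e m j h5 h6 h7 h8, ?_⟩
    funext i
    simp only [QQ, pt, Pi.add_apply]
    split_ifs
    · linarith
    · linarith
    · have : 2 * (20 * (j : ℤ)) * (a + a') = 2 * (20 * (j : ℤ)) * (c + c') := by rw [h9]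
      linarith
    · rfl
  fin_cases s
  · exact key 2 0 0 2 1 1 1 1 (by norm_num) (by norm_num) (by norm_num) (by norm_num)
      (by norm_num) (by norm_num) (by norm_num) (by norm_num) (by norm_num) (by norm_num)
  · exact key 0 2 0 (-1) 0 0 0 1 (by norm_num) (by norm_num) (by norm_num) (by norm_num)
      (by norm_num) (by norm_num) (by norm_num) (by norm_num) (by norm_num) (by norm_num)
  · exact key 0 (-1) 1 2 0 0 1 1 (by norm_num) (by norm_num) (by norm_num) (by norm_num)
      (by norm_num) (by norm_num) (by norm_num) (by norm_num) (by norm_num) (by norm_num)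
  · exact key 1 2 (-1) 0 0 1 0 1 (by norm_num) (by norm_num) (by norm_num) (by norm_num)
      (by norm_num) (by norm_num) (by norm_num) (by norm_num) (by norm_num) (by norm_num)
  · exact key (-1) 0 2 0 0 0 1 0 (by norm_num) (by norm_num) (by norm_num) (by norm_num)
      (by norm_num) (by norm_num) (by norm_num) (by norm_num) (by norm_num) (by norm_num)

theorem numeric {x x' a a' xu xv : ℤ} (h : 17 ≤ x - x' ∨ 17 ≤ x' - x) (ha : -1 ≤ a) (ha' : a ≤ 2)
    (hb : -1 ≤ a') (hb' : a' ≤ 2) (h1 : xu + xv = x + x') (h2 : xv - xu = 0 ∨ xv - xu = 1) :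
    -x ^ 2 + a ^ 2 + 1 + (-x' ^ 2 + a' ^ 2 + 1) + xu ^ 2 + xv ^ 2 ≤ 0 := by
  have hxx : 17 ^ 2 ≤ (x - x') ^ 2 := by
    rcases h with h | h <;> nlinarith
  have ha2 : a ^ 2 ≤ 4 := by nlinarith
  have ha2' : a' ^ 2 ≤ 4 := by nlinarith
  have hsum : 2 * (xu ^ 2 + xv ^ 2) ≤ (x + x') ^ 2 + 1 := by
    have e1 : 2 * (xu ^ 2 + xv ^ 2) = (xu + xv) ^ 2 + (xv - xu) ^ 2 := by ring
    rw [e1, h1]
    rcases h2 with h | h <;> rw [h] <;> norm_num
  nlinarith

/-- Points around different parallelograms hide each other. -/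
theorem other {j j' : Fin m} (hj : j ≠ j') (s s' : Fin 5) : ∃ u ∈ XX e m, ∃ v ∈ XX e m,
    QQ e (20 * (j : ℤ)) (ca s) (cb s) + QQ e (20 * (j' : ℤ)) (ca s') (cb s') = u + v := by
  obtain ⟨a1, a2, b1, b2⟩ : -1 ≤ ca s ∧ ca s ≤ 2 ∧ -1 ≤ cb s ∧ cb s ≤ 2 := by
    unfold ca cb
    fin_cases s <;> simp
  obtain ⟨a1', a2', b1', b2'⟩ : -1 ≤ ca s' ∧ ca s' ≤ 2 ∧ -1 ≤ cb s' ∧ cb s' ≤ 2 := by
    unfold ca cb
    fin_cases s' <;> simp
  generalize ca s = a at *
  generalize cb s = b at *
  generalize ca s' = a' at *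
  generalize cb s' = b' at *
  have hK : KK m = 2 * (20 * (m : ℤ) + 20) ^ 2 := rfl
  have hne : (j : ℤ) ≠ (j' : ℤ) := by
    intro hc
    apply hj
    apply Fin.ext
    exact_mod_cast hc
  have hm : (0 : ℤ) ≤ m := by positivity
  have hj0 : (0 : ℤ) ≤ (j : ℤ) := by positivity
  have hjm : (j : ℤ) < m := by exact_mod_cast j.2
  have hj0' : (0 : ℤ) ≤ (j' : ℤ) := by positivity
  have hjm' : (j' : ℤ) < m := by exact_mod_cast j'.2
  obtain ⟨x, hx⟩ : ∃ x : ℤ, x = 20 * (j : ℤ) + a := ⟨_, rfl⟩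
  obtain ⟨x', hx'⟩ : ∃ x' : ℤ, x' = 20 * (j' : ℤ) + a' := ⟨_, rfl⟩
  obtain ⟨xu, hxu⟩ : ∃ xu : ℤ, xu = (x + x') / 2 := ⟨_, rfl⟩
  obtain ⟨xv, hxv⟩ : ∃ xv : ℤ, xv = x + x' - xu := ⟨_, rfl⟩
  have hz : -(20 * (j : ℤ)) ^ 2 - 2 * (20 * (j : ℤ)) * a + 1 = -x ^ 2 + a ^ 2 + 1 := by
    rw [hx]; ring
  have hz' : -(20 * (j' : ℤ)) ^ 2 - 2 * (20 * (j' : ℤ)) * a' + 1 = -x' ^ 2 + a' ^ 2 + 1 := by
    rw [hx']; ring
  have hv := numeric (x := x) (x' := x') (a := a) (a' := a') (xu := xu) (xv := xv)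
    (by omega) a1 a2 a1' a2' (by omega) (by omega)
  have bx : -1 ≤ x ∧ x ≤ 20 * (m : ℤ) := by omega
  have bx' : -1 ≤ x' ∧ x' ≤ 20 * (m : ℤ) := by omega
  have bxu : -1 ≤ xu ∧ xu ≤ 20 * (m : ℤ) := by omega
  have bxv : -1 ≤ xv ∧ xv ≤ 20 * (m : ℤ) := by omega
  have sq : ∀ y : ℤ, -1 ≤ y → y ≤ 20 * (m : ℤ) → y ^ 2 ≤ (20 * (m : ℤ) + 20) ^ 2 := by
    intro y h1 h2
    nlinarith
  have s1 := sq x bx.1 bx.2
  have s2 := sq x' bx'.1 bx'.2
  have s3 := sq xu bxu.1 bxu.2
  have s4 := sq xv bxv.1 bxv.2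
  have hKm : 20 * (m : ℤ) ≤ KK m := by rw [hK]; nlinarith
  have hKp := KK_pos m
  have q1 := sq_nonneg a
  have q2 := sq_nonneg a'
  have q3 := sq_nonneg xu
  have q4 := sq_nonneg xv
  have q5 := sq_nonneg x
  have q6 := sq_nonneg x'
  refine ⟨pt e xu b (-xu ^ 2), ?_, pt e xv b'
    (-x ^ 2 + a ^ 2 + 1 + (-x' ^ 2 + a' ^ 2 + 1) + xu ^ 2), ?_, ?_⟩
  · apply pt_mem
    · linarith
    · linarith
    · linarith
    · linarith
    · linarith
    · linarith
    · intro i
      exact good_of_le e (by linarith)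
  · apply pt_mem
    · linarith
    · linarith
    · linarith
    · linarith
    · linarith
    · linarith
    · intro i
      exact good_of_le e hv
  · funext i
    simp only [QQ, pt, Pi.add_apply]
    rw [hz, hz']
    split_ifs
    · linarith
    · linarith
    · ring
    · rfl

theorem relax_ge {k : ℕ} (h : HasRelaxation (XX e m) k) : 3 * m ≤ k := by
  classical
  obtain ⟨a, b, hab⟩ := h
  have hex : ∀ (j : Fin m) (s : Fin 5), ∃ i : Fin k,
      b i < ∑ l, a i l * ((QQ e (20 * (j : ℤ)) (ca s) (cb s) l : ℤ) : ℝ) := by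
    intro j s
    have h1 := QQ_not_mem e m j (off_c s)
    rw [hab] at h1
    push Not at h1
    exact h1
  choose c hc using hex
  have hsame : ∀ j s, c j s ≠ c j (s + 1) := by
    intro j s h
    obtain ⟨u, hu, v, hv, huv⟩ := same e m j s
    exact conflict hab hu hv huv (c j s) (hc j s) (by rw [h]; exact hc j (s + 1))
  have hother : ∀ j j', j ≠ j' → ∀ s s', c j s ≠ c j' s' := by
    intro j j' hj s s' h
    obtain ⟨u, hu, v, hv, huv⟩ := other e m hj s s'
    exact conflict hab hu hv huv (c j s) (hc j s) (by rw [h]; exact hc j' s')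
  have hthree : ∀ j, 3 ≤ (Finset.univ.image (c j)).card := by
    intro j
    have h01 := hsame j 0
    have h12 := hsame j 1
    have h23 := hsame j 2
    have h34 := hsame j 3
    have h40 := hsame j 4
    simp only [Fin.isValue, Fin.reduceAdd] at h01 h12 h23 h34 h40
    have tri : ∀ x y z : Fin k, x ∈ Finset.univ.image (c j) → y ∈ Finset.univ.image (c j) →
        z ∈ Finset.univ.image (c j) → x ≠ y → x ≠ z → y ≠ z →
        3 ≤ (Finset.univ.image (c j)).card := by
      intro x y z hx hy hz hxy hxz hyz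
      exact Finset.two_lt_card.2 ⟨x, hx, y, hy, z, hz, hxy, hxz, hyz⟩
    have mem : ∀ s, c j s ∈ Finset.univ.image (c j) := fun s =>
      Finset.mem_image_of_mem _ (Finset.mem_univ _)
    by_cases h02 : c j 0 = c j 2
    · by_cases h13 : c j 1 = c j 3
      · exact tri _ _ _ (mem 0) (mem 1) (mem 4) h01 (fun h => h40 h.symm)
          (fun h => h34 (h13 ▸ h))
      · exact tri _ _ _ (mem 0) (mem 1) (mem 3) h01 (fun h => h23 (h02 ▸ h)) h13
    · exact tri _ _ _ (mem 0) (mem 1) (mem 2) h01 h02 h12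
  have hdisj : ∀ j ∈ (Finset.univ : Finset (Fin m)), ∀ j' ∈ (Finset.univ : Finset (Fin m)),
      j ≠ j' → Disjoint (Finset.univ.image (c j)) (Finset.univ.image (c j')) := by
    intro j _ j' _ hj
    rw [Finset.disjoint_left]
    intro x hx hx'
    obtain ⟨s, -, rfl⟩ := Finset.mem_image.1 hx
    obtain ⟨s', -, h⟩ := Finset.mem_image.1 hx'
    exact hother j j' hj s s' h.symm
  have h1 := Finset.card_biUnion hdisj
  have h2 := Finset.card_le_univ (Finset.univ.biUnion fun j => Finset.univ.image (c j))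
  rw [h1, Fintype.card_fin] at h2
  have h3 : ∑ _j : Fin m, 3 ≤ ∑ j : Fin m, (Finset.univ.image (c j)).card :=
    Finset.sum_le_sum fun j _ => hthree j
  simp at h3
  omega

end construction

/-- Every finite lattice-convex set has a relaxation. -/
theorem exists_relaxation {d : ℕ} {X : Set (Fin d → ℤ)} (hfin : X.Finite) (hX : LatticeConvex X) :
    ∃ k, HasRelaxation X k := by
  classical
  obtain ⟨U, hU⟩ := hfin.bddAbove
  obtain ⟨L, hL⟩ := hfin.bddBelow
  let F : Set (Fin d → ℤ) := {p | p ∈ Icc L U ∧ p ∉ X}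
  have hF : F.Finite := (Set.finite_Icc L U).subset fun p hp => hp.1
  have hclosed : IsClosed (convexHull ℝ (toR '' X)) :=
    (hfin.image toR).isClosed_convexHull ℝ
  have hsep : ∀ p : F, ∃ (a : Fin d → ℝ) (b : ℝ), (∀ x ∈ X, ∑ j, a j * (x j : ℝ) ≤ b) ∧
      b < ∑ j, a j * (p.1 j : ℝ) := by
    rintro ⟨p, hp⟩
    have hp' : toR p ∉ convexHull ℝ (toR '' X) := fun h => hp.2 (hX p h)
    obtain ⟨f, u, hf1, hf2⟩ := geometric_hahn_banach_closed_point (convex_convexHull ℝ _) hclosed hp'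
    have hfe : ∀ x : Fin d → ℤ, f (toR x) = ∑ j, f (Pi.single j 1) * (x j : ℝ) := by
      intro x
      conv_lhs => rw [← Finset.univ_sum_single (toR x), map_sum]
      apply Finset.sum_congr rfl
      intro j _
      have : (Pi.single j (toR x j) : Fin d → ℝ) = (x j : ℝ) • Pi.single j (1 : ℝ) := by
        rw [← Pi.single_smul, smul_eq_mul, mul_one]
        rfl
      rw [this, map_smul, smul_eq_mul, mul_comm]
    refine ⟨fun j => f (Pi.single j 1), u, fun x hx => ?_, ?_⟩
    · rw [← hfe]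
      exact (hf1 _ (subset_convexHull ℝ _ ⟨x, hx, rfl⟩)).le
    · rw [← hfe]
      exact hf2
  choose a b hab1 hab2 using hsep
  have : Fintype F := hF.fintype
  let ι := (Fin d ⊕ Fin d) ⊕ F
  let A : ι → Fin d → ℝ := Sum.elim (Sum.elim (fun i => Pi.single i 1) (fun i => Pi.single i (-1))) a
  let B : ι → ℝ := Sum.elim (Sum.elim (fun i => (U i : ℝ)) (fun i => -(L i : ℝ))) b
  have hAB : ∀ p : Fin d → ℤ, p ∈ X ↔ ∀ i : ι, ∑ j, A i j * (p j : ℝ) ≤ B i := by
    intro p
    constructor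
    · rintro hp ((i | i) | i)
      · simp only [A, B, Sum.elim_inl, Pi.single_apply, ite_mul, one_mul, zero_mul,
          Finset.sum_ite_eq', Finset.mem_univ, if_true]
        exact_mod_cast hU hp i
      · simp only [A, B, Sum.elim_inl, Sum.elim_inr, Pi.single_apply, ite_mul, neg_mul, one_mul,
          zero_mul, Finset.sum_ite_eq', Finset.mem_univ, if_true]
        have := hL hp i
        have h' : (L i : ℝ) ≤ p i := by exact_mod_cast this
        linarith
      · exact hab1 i p hp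
    · intro h
      by_contra hp
      have h1 : p ≤ U := by
        intro i
        have := h (Sum.inl (Sum.inl i))
        simp only [A, B, Sum.elim_inl, Pi.single_apply, ite_mul, one_mul, zero_mul,
          Finset.sum_ite_eq', Finset.mem_univ, if_true] at this
        exact_mod_cast this
      have h2 : L ≤ p := by
        intro i
        have := h (Sum.inl (Sum.inr i))
        simp only [A, B, Sum.elim_inl, Sum.elim_inr, Pi.single_apply, ite_mul, neg_mul, one_mul,
          zero_mul, Finset.sum_ite_eq', Finset.mem_univ, if_true] at this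
        have h' : (L i : ℝ) ≤ p i := by linarith
        exact_mod_cast h'
      have h3 := h (Sum.inr ⟨p, ⟨h2, h1⟩, hp⟩)
      exact absurd h3 (not_le.2 (hab2 ⟨p, ⟨h2, h1⟩, hp⟩))
  refine ⟨Fintype.card ι, fun i => A ((Fintype.equivFin ι).symm i),
    fun i => B ((Fintype.equivFin ι).symm i), fun p => ?_⟩
  rw [hAB]
  constructor
  · intro h i
    exact h _
  · intro h i
    have := h (Fintype.equivFin ι i)
    simpa using this

/-- **Negative answer to Q1, in every dimension `d ≥ 3`.** For every `d ≥ 3` and every `N` there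
is a finite, full-dimensional, lattice-convex set `X ⊆ ℤ^d` whose relaxation complexity exceeds
its hiding set bound by at least `N`. -/
theorem result (d : ℕ) (hd : 3 ≤ d) (N : ℕ) : ∃ X : Set (Fin d → ℤ), X.Finite ∧
    FullDimensional X ∧ LatticeConvex X ∧
    ∃ h r : ℕ, IsHidingBound X h ∧ IsRelaxationComplexity X r ∧ h + N ≤ r := by
  obtain ⟨e, rfl⟩ : ∃ e, d = e + 3 := ⟨d - 3, by omega⟩
  classical
  set m := N + 2 * (e + 3) with hm
  refine ⟨XX e m, finite_XX e m, fullDimensional_XX e m, latticeConvex_XX e m, ?_⟩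
  have hex := exists_relaxation (finite_XX e m) (latticeConvex_XX e m)
  let S : Set ℕ := {n | ∃ H : Finset (Fin (e + 3) → ℤ), IsHidingSet (XX e m) H ∧ H.card = n}
  have hSb : ∀ n ∈ S, n ≤ 2 * (e + 3) + 2 * m := by
    rintro n ⟨H, hH, rfl⟩
    exact hiding_card e m hH
  have hS0 : (0 : ℕ) ∈ S := ⟨∅, ⟨by simp, by simp⟩, by simp⟩
  have hbdd : BddAbove S := ⟨_, hSb⟩
  have hh : IsGreatest S (sSup S) := ⟨Nat.sSup_mem ⟨0, hS0⟩ hbdd, fun n hn => le_csSup hbdd hn⟩
  have hr : IsLeast {k | HasRelaxation (XX e m) k} (Nat.find hex) :=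
    ⟨Nat.find_spec hex, fun k hk => Nat.find_min' hex hk⟩
  refine ⟨sSup S, Nat.find hex, hh, hr, ?_⟩
  have h1 := hSb _ hh.1
  have h2 := relax_ge e m hr.1
  omega

end Pool.Agent.Results.MP_288038_co.HidingGap
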